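import Pool.Agent.Lib.MP_ab8df0_nt.A.Twr

/-! Square classes with even valuation outside 30. -/

namespace Pool.Agent.Lib.MP_ab8df0_nt.A.F5

open Pool.Agent.Lib.MP_ab8df0_nt.A

/-- Lower coefficients of the polynomial. -/
def fl : List ℤ := [-1, -1]

/-- The modulus. -/
def m : ℕ := nat_lit 0x4d28cb56c33fa539

/-- The roots modulo the modulus. -/
def ρ : List ℕ := [nat_lit 0x3832f73eac7a8b0b, nat_lit 0x14f5d41816c51a2f]

theorem a0 : CovA fl 30 1 m 2 ρ 0 (0 + 2) := covA _ _ _ _ _ _ _ _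
  [(0, [])] (by decide +kernel)

theorem ra {F : Type*} [Field F] [NumberField F] {α : NumberField.RingOfIntegers F} (h : Gen α fl) :
    Range F 30 1 0 2 :=
  have hs : splitOK fl m 2 ρ = true := by decide +kernel
  a0.range h hs

open NumberField IsDedekindDomain

variable {F : Type*} [Field F] [NumberField F] {α : 𝓞 F}

theorem c2 (h : Gen α fl) : Cnt F 2 1 :=
  h.cnt (m := m) (r := 2) (ρ := ρ) Nat.prime_two (l := [(⟨[1, 1], 1, 2, [1], [2]⟩, 1)]) (by decide +kernel)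

theorem c3 (h : Gen α fl) : Cnt F 3 1 :=
  h.cnt (m := m) (r := 2) (ρ := ρ) Nat.prime_three (l := [(⟨[1, 1], 1, 2, [2, 2], [3]⟩, 1)]) (by decide +kernel)

theorem c5 (h : Gen α fl) : Cnt F 5 1 :=
  h.cnt (m := m) (r := 2) (ρ := ρ) Nat.prime_five (l := [(⟨[3], 2, 1, [1], [2, 1]⟩, 1)]) (by decide +kernel)

/-- The generators. -/
def g : Fin 5 → List ℤ := ![[-1],
  [0, 1],
  [2],
  [3],
  [-1, 2]]

theorem SU (h : Gen α fl) {ξ : F} (h0 : ξ ≠ 0)
    (hξ : ∀ v : HeightOneSpectrum (𝓞 F), ((30 : ℕ) : 𝓞 F) ∉ v.asIdeal →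
      ∃ k : ℤ, v.valuation F ξ = WithZero.exp (2 * k)) :
    ∃ (e : Fin 5 → Bool) (u : F), ξ = (∏ i, if e i then ev (α : F) (g i) else 1) * u ^ 2 :=
  h.SU (M := 1) (m := m) (r := 2) (ρ := ρ) (D := 5) (dF := 5)
    (bs := [([1], 1, [1, -2]), ([0, 1], 1, [-1, -1])])
    (K := 10000000000000000000000000000000000000000) (E := 10000000000000000000000000000000000000000) (zs := []) (T := 27)
    (c := ![(239, 16), (409, 280), (181, 14), (401, 290), (769, 339)]) (by decide +kernel)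
    (((c2 h).mul (c3 h)).mul (c5 h)) (ra h) h0 hξ

instance : Fact (Irreducible (mq fl)) :=
  ⟨irr_of_deg (D := 2) (D' := 2) Nat.prime_two Nat.prime_two (l := [⟨[1, 1], 1, 2, [1], []⟩])
    (l' := [⟨[1, 1], 1, 2, [1], []⟩]) (by decide +kernel)⟩

theorem re0 (h : Gen α fl) : ∃ φ : F →+* ℝ, ((-618033988749894848204586834366 : ℤ) : ℝ) / ((10 ^ 30 : ℕ) : ℝ) < φ α ∧
    φ α < ((-618033988749894848204586834365 : ℤ) : ℝ) / ((10 ^ 30 : ℕ) : ℝ) := h.real (by decide +kernel)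

theorem re1 (h : Gen α fl) : ∃ φ : F →+* ℝ, ((1618033988749894848204586834365 : ℤ) : ℝ) / ((10 ^ 30 : ℕ) : ℝ) < φ α ∧
    φ α < ((1618033988749894848204586834366 : ℤ) : ℝ) / ((10 ^ 30 : ℕ) : ℝ) := h.real (by decide +kernel)


end Pool.Agent.Lib.MP_ab8df0_nt.A.F5
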