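import Pool.Agent.Lib.MP_ab8df0_nt.A.F5.Main

/-! Square classes with even valuation outside two. -/

namespace Pool.Agent.Lib.MP_ab8df0_nt.A.F5

open Pool.Agent.Lib.MP_ab8df0_nt.A

open NumberField IsDedekindDomain

variable {F : Type*} [Field F] [NumberField F] {α : 𝓞 F}

theorem ra2 (h : Gen α fl) : Range F 2 1 0 2 :=
  (covA fl 2 1 m 2 ρ 0 2 [(0, [])] (by decide +kernel)).range h (by decide +kernel)

/-- The generators. -/
def g2 : Fin 3 → List ℤ := ![[-1], [0, 1], [2]]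

theorem SU2 (h : Gen α F5.fl) {ξ : F} (h0 : ξ ≠ 0)
    (hξ : ∀ v : HeightOneSpectrum (𝓞 F), ((2 : ℕ) : 𝓞 F) ∉ v.asIdeal →
      ∃ k : ℤ, v.valuation F ξ = WithZero.exp (2 * k)) :
    ∃ (e : Fin 3 → Bool) (u : F), ξ = (∏ i, if e i then A.ev (α : F) (g2 i) else 1) * u ^ 2 :=
  h.SU (M := 1) (m := F5.m) (r := 2) (ρ := F5.ρ) (D := 5) (dF := 5)
    (bs := [([1], 1, [1, -2]), ([0, 1], 1, [-1, -1])])
    (K := 10000000000000000000000000000000000000000) (E := 10000000000000000000000000000000000000000) (zs := []) (T := 10)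
    (c := ![(31, 19), (41, 7), (101, 23)]) (by decide +kernel)
    (c2 h) (ra2 h) h0 hξ

end Pool.Agent.Lib.MP_ab8df0_nt.A.F5
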